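import Mathlib
import Pool.Agent.R259.TK

set_option autoImplicit false

namespace Pool.Agent.Results.MP_21a1fd_an.SqrtSequence

open Polynomial Filter Topology

/-- A real polynomial has only real zeros (the zero polynomial is admitted). -/
def OnlyRealZeros (p : ℝ[X]) : Prop := p = 0 ∨ ∀ z : ℂ, aeval z p = 0 → z.im = 0

/-- `γ` is a multiplier sequence: for every real polynomial `p = ∑ a_k x^k` with only real zeros,
`∑ γ_k a_k x^k` has only real zeros. -/
def IsMultiplierSequence (γ : ℕ → ℝ) : Prop :=
  ∀ p : ℝ[X], OnlyRealZeros p →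
    OnlyRealZeros (∑ k ∈ Finset.range (p.natDegree + 1), C (γ k * p.coeff k) * X ^ k)

/-- The sequence `√k / k!` is a multiplier sequence. -/
theorem result : IsMultiplierSequence (fun k => Real.sqrt k / k.factorial) := by
  obtain ⟨q, hq, hc⟩ := Pool.Agent.R259.toolkit_ms Pool.Agent.S06389.cc (Pool.Agent.S06389.CC + 1)
    Pool.Agent.S06389.LL Pool.Agent.S06389.ss
    (fun n hn => (Pool.Agent.S06389.LL_bound n hn).1)
    (fun n hn => (Pool.Agent.S06389.LL_bound n hn).2) Pool.Agent.S06389.cc_tendsto
  have hpi : 0 < Real.pi * Real.sqrt Real.pi := mul_pos Real.pi_pos (Real.sqrt_pos.2 Real.pi_pos)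
  exact Pool.Agent.R259.isMS_of_limit (q := fun n => C (Real.pi * Real.sqrt Real.pi)⁻¹ * q n)
    (by
      filter_upwards [hq] with n hn z hz
      rw [map_mul, aeval_C] at hz
      rcases mul_eq_zero.1 hz with h | h
      · exfalso
        have h2 : ((Real.pi * Real.sqrt Real.pi)⁻¹ : ℝ) = 0 := by
          simpa using h
        exact (inv_pos.2 hpi).ne' h2
      · exact hn z h) (by
      intro k
      have h1 := (hc k).const_mul (Real.pi * Real.sqrt Real.pi)⁻¹
      simp only [coeff_C_mul]
      have h2 : (Real.pi * Real.sqrt Real.pi)⁻¹ * (Pool.Agent.S06389.cc k *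
          (4 ^ k / ((2 * k).factorial : ℝ))) = Real.sqrt k / k.factorial / k.factorial := by
        unfold Pool.Agent.S06389.cc
        have hf : (0:ℝ) < ((2 * k).factorial : ℝ) := by positivity
        have hf2 : (0:ℝ) < (k.factorial : ℝ) := by positivity
        have hs : 0 < Real.sqrt Real.pi := Real.sqrt_pos.2 Real.pi_pos
        have hp := Real.pi_pos
        field_simp
      rw [h2] at h1
      exact h1)

end Pool.Agent.Results.MP_21a1fd_an.SqrtSequence
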